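import Pool.Agent.Helper73.Dn.Goals

/-!
# Packet DN-INFU (project DN, MP_70814c_an)

Above the threshold the sums of the `1 - Re σ^(n_k)` over `S ∩ [N, 2 N]` are unbounded.
-/

set_option autoImplicit false

open Pool.Agent.Helper66.Rig MeasureTheory Pool.Agent.Helper73.Dn

namespace Pool.Agent.Helper71.Dn

theorem norm_fc_le (σ : Measure ℂ) [IsProbabilityMeasure σ] (h : ∀ᵐ z ∂σ, ‖z‖ = 1) (m : ℕ) :
    ‖fc σ m‖ ≤ 1 := by
  have h1 : ∀ᵐ z ∂σ, ‖z ^ m‖ ≤ (1 : ℝ) := by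
    filter_upwards [h] with z hz
    rw [norm_pow, hz, one_pow]
  have := norm_integral_le_of_norm_le_const h1
  simpa [fc] using this

theorem re_fc_le (σ : Measure ℂ) [IsProbabilityMeasure σ] (h : ∀ᵐ z ∂σ, ‖z‖ = 1) (m : ℕ) :
    (fc σ m).re ≤ 1 :=
  (Complex.re_le_norm _).trans (norm_fc_le σ h m)

theorem re_fc_lt (σ : Measure ℂ) [IsProbabilityMeasure σ] (h : ∀ᵐ z ∂σ, ‖z‖ = 1) (m : ℕ)
    (hne : fc σ m ≠ 1) : (fc σ m).re < 1 := by
  refine lt_of_le_of_ne (re_fc_le σ h m) fun he => hne ?_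
  have h1 := norm_fc_le σ h m
  have h2 : Complex.normSq (fc σ m) ≤ 1 := by
    rw [Complex.normSq_eq_norm_sq]
    have := norm_nonneg (fc σ m)
    nlinarith
  rw [Complex.normSq_apply, he] at h2
  have h3 : (fc σ m).im = 0 := by
    have : (fc σ m).im * (fc σ m).im ≤ 0 := by linarith
    have h4 : (fc σ m).im * (fc σ m).im = 0 := le_antisymm this (mul_self_nonneg _)
    exact mul_self_eq_zero.1 h4
  exact Complex.ext (by simpa using he) (by simpa using h3)

/-- the windows `[N 2 ^ j, 2 N 2 ^ j]`, `j ≤ r` cover `[N, N 2 ^ (r + 1)]` -/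
theorem cover (N r k : ℕ) (h1 : N ≤ k) (h2 : k ≤ N * 2 ^ (r + 1)) :
    ∃ j ∈ Finset.range (r + 1), N * 2 ^ j ≤ k ∧ k ≤ 2 * (N * 2 ^ j) := by
  induction r with
  | zero =>
    refine ⟨0, by simp, by simpa using h1, ?_⟩
    simp only [zero_add, pow_one] at h2
    simp only [pow_zero, mul_one]
    omega
  | succ r ih =>
    by_cases h : k ≤ N * 2 ^ (r + 1)
    · obtain ⟨j, hj, hj1, hj2⟩ := ih h
      exact ⟨j, Finset.mem_range.2 ((Finset.mem_range.1 hj).trans (Nat.lt_succ_self _)), hj1, hj2⟩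
    · refine ⟨r + 1, by simp, le_of_lt (not_le.1 h), ?_⟩
      have : N * 2 ^ (r + 1 + 1) = 2 * (N * 2 ^ (r + 1)) := by ring
      rw [this] at h2
      exact h2

open Classical in
/-- the part of `S` in `[N, T)` -/
noncomputable def win (S : Set ℕ) (N T : ℕ) : Finset ℕ := (Finset.Ico N T).filter (fun k => k ∈ S)

theorem mem_win (S : Set ℕ) (N T k : ℕ) : k ∈ win S N T ↔ (N ≤ k ∧ k < T) ∧ k ∈ S := by
  classical
  simp [win]

theorem sum_biUnion_le (s : Finset ℕ) (t : ℕ → Finset ℕ) (f : ℕ → ℝ) (hf : ∀ k, 0 ≤ f k) :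
    ∑ k ∈ s.biUnion t, f k ≤ ∑ j ∈ s, ∑ k ∈ t j, f k := by
  induction s using Finset.induction_on with
  | empty => simp
  | insert a s ha ih =>
    rw [Finset.biUnion_insert, Finset.sum_insert ha]
    have h1 := Finset.sum_union_inter (s₁ := t a) (s₂ := s.biUnion t) (f := f)
    have h0 : 0 ≤ ∑ k ∈ t a ∩ s.biUnion t, f k := Finset.sum_nonneg fun k _ => hf k
    linarith

open Classical in
theorem sum_win (S : Set ℕ) (N T r : ℕ) (hT : T ≤ N * 2 ^ (r + 1)) (f : ℕ → ℝ)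
    (hf : ∀ k, 0 ≤ f k) (C : ℝ)
    (hC : ∀ N : ℕ, ∑ k ∈ (Finset.Icc N (2 * N)).filter (fun k => k ∈ S), f k ≤ C) :
    ∑ k ∈ win S N T, f k ≤ (r + 1) * C := by
  have h1 : win S N T ⊆ (Finset.range (r + 1)).biUnion
      (fun j => (Finset.Icc (N * 2 ^ j) (2 * (N * 2 ^ j))).filter (fun k => k ∈ S)) := by
    intro k hk
    rw [mem_win] at hk
    obtain ⟨j, hj, hj1, hj2⟩ := cover N r k hk.1.1 (hk.1.2.le.trans hT)
    rw [Finset.mem_biUnion]
    exact ⟨j, hj, Finset.mem_filter.2 ⟨Finset.mem_Icc.2 ⟨hj1, hj2⟩, hk.2⟩⟩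
  calc ∑ k ∈ win S N T, f k
      ≤ ∑ k ∈ (Finset.range (r + 1)).biUnion
          (fun j => (Finset.Icc (N * 2 ^ j) (2 * (N * 2 ^ j))).filter (fun k => k ∈ S)), f k :=
        Finset.sum_le_sum_of_subset_of_nonneg h1 fun k _ _ => hf k
    _ ≤ ∑ j ∈ Finset.range (r + 1),
          ∑ k ∈ (Finset.Icc (N * 2 ^ j) (2 * (N * 2 ^ j))).filter (fun k => k ∈ S), f k :=
        sum_biUnion_le _ _ f hf
    _ ≤ ∑ _j ∈ Finset.range (r + 1), C := Finset.sum_le_sum fun j _ => hC _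
    _ = (r + 1) * C := by simp

open Classical in
theorem ends_win (S : Set ℕ) (N T r J : ℕ) (hT : T ≤ N * 2 ^ (r + 1))
    (hJ : ∀ N : ℕ, ((Finset.Icc N (2 * N)).filter (fun k => k ∈ S ∧ k + 1 ∉ S)).card ≤ J) :
    (ends (win S N T)).card ≤ (r + 1) * J + 1 := by
  have h1 : ends (win S N T) ⊆ ((Finset.range (r + 1)).biUnion
      (fun j => (Finset.Icc (N * 2 ^ j) (2 * (N * 2 ^ j))).filter
        (fun k => k ∈ S ∧ k + 1 ∉ S))) ∪ {T - 1} := by
    intro k hk
    rw [ends, Finset.mem_filter, mem_win, mem_win] at hk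
    obtain ⟨⟨⟨hk1, hk2⟩, hk3⟩, hk4⟩ := hk
    rw [Finset.mem_union, Finset.mem_biUnion, Finset.mem_singleton]
    by_cases h : k + 1 < T
    · left
      have hk5 : k + 1 ∉ S := fun h5 => hk4 ⟨⟨by omega, h⟩, h5⟩
      obtain ⟨j, hj, hj1, hj2⟩ := cover N r k hk1 (hk2.le.trans hT)
      exact ⟨j, hj, Finset.mem_filter.2 ⟨Finset.mem_Icc.2 ⟨hj1, hj2⟩, hk3, hk5⟩⟩
    · right
      omega
  calc (ends (win S N T)).card
      ≤ (((Finset.range (r + 1)).biUnion
          (fun j => (Finset.Icc (N * 2 ^ j) (2 * (N * 2 ^ j))).filter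
            (fun k => k ∈ S ∧ k + 1 ∉ S))) ∪ {T - 1}).card := Finset.card_le_card h1
    _ ≤ ((Finset.range (r + 1)).biUnion
          (fun j => (Finset.Icc (N * 2 ^ j) (2 * (N * 2 ^ j))).filter
            (fun k => k ∈ S ∧ k + 1 ∉ S))).card + 1 := by
        refine (Finset.card_union_le _ _).trans ?_
        simp
    _ ≤ (∑ j ∈ Finset.range (r + 1), ((Finset.Icc (N * 2 ^ j) (2 * (N * 2 ^ j))).filter
            (fun k => k ∈ S ∧ k + 1 ∉ S)).card) + 1 := by
        gcongr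
        exact Finset.card_biUnion_le
    _ ≤ (∑ _j ∈ Finset.range (r + 1), J) + 1 := by
        gcongr
        exact hJ _
    _ = (r + 1) * J + 1 := by simp

theorem cnt_le (S : Set ℕ) (N T : ℕ) : cnt S T ≤ (win S N T).card + N := by
  classical
  have h1 : S ∩ Set.Iio T ⊆ ((win S N T ∪ Finset.range N : Finset ℕ) : Set ℕ) := by
    intro k hk
    rw [Finset.coe_union, Set.mem_union, Finset.mem_coe, Finset.mem_coe, mem_win,
      Finset.mem_range]
    by_cases h : k < N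
    · right; exact h
    · left
      exact ⟨⟨not_lt.1 h, hk.2⟩, hk.1⟩
  calc cnt S T = (S ∩ Set.Iio T).ncard := rfl
    _ ≤ ((win S N T ∪ Finset.range N : Finset ℕ) : Set ℕ).ncard :=
        Set.ncard_le_ncard h1 (Finset.finite_toSet _)
    _ = (win S N T ∪ Finset.range N).card := Set.ncard_coe_finset _
    _ ≤ (win S N T).card + (Finset.range N).card := Finset.card_union_le _ _
    _ = (win S N T).card + N := by simp

theorem cnt_le' (S : Set ℕ) (N T n : ℕ) (h : n ≤ T) :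
    cnt S n ≤ ((win S N T).filter (fun k => k ≤ n)).card + N := by
  refine (cnt_le S N n).trans ?_
  gcongr
  intro k hk
  rw [mem_win] at hk
  rw [Finset.mem_filter, mem_win]
  exact ⟨⟨⟨hk.1.1, hk.1.2.trans_le h⟩, hk.2⟩, hk.1.2.le⟩

theorem log_facts : 0 < Real.log 2 ∧ 0 < Real.log 3 ∧ Real.log 2 ≤ Real.log 3 ∧
    Real.log 3 ≤ 2 * Real.log 2 := by
  refine ⟨Real.log_pos (by norm_num), Real.log_pos (by norm_num),
    Real.log_le_log (by norm_num) (by norm_num), ?_⟩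
  have h : (2 : ℝ) * Real.log 2 = Real.log (2 ^ 2) := by
    rw [Real.log_pow]; norm_num
  rw [h]
  exact Real.log_le_log (by norm_num) (by norm_num)

theorem infU (h : Pool.Agent.Helper73.Dn.Meas) : Pool.Agent.Helper73.Dn.InfU := by
  classical
  intro S hS δ hδ hlarge σ hσ hz hne C
  obtain ⟨hl2, hl3, hl23, hl32⟩ := log_facts
  obtain ⟨J, hJ⟩ := hS
  by_contra hcon
  push Not at hcon
  -- `C ≥ 0`
  have hterm : ∀ k : ℕ, 0 ≤ 1 - (fc σ (2 ^ k + 3 ^ k)).re := fun k =>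
    sub_nonneg.2 (re_fc_le σ hz _)
  have hΛ : 0 < 1 - (fc σ 1).re := sub_pos.2 (re_fc_lt σ hz 1 hne)
  set Λ := 1 - (fc σ 1).re with hΛd
  -- choice of `a`
  obtain ⟨a, ha⟩ : ∃ a : ℕ, (Real.log 2 + Real.log 3) / 2 ^ a ≤ δ / 2 * Real.log 3 := by
    obtain ⟨a, ha⟩ := exists_pow_lt_of_lt_one (x := δ / 2 * Real.log 3 / (Real.log 2 + Real.log 3))
      (by positivity) (show (1 / 2 : ℝ) < 1 by norm_num)
    refine ⟨a, ?_⟩
    rw [lt_div_iff₀ (by positivity)] at ha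
    have : (Real.log 2 + Real.log 3) / 2 ^ a = (1 / 2 : ℝ) ^ a * (Real.log 2 + Real.log 3) := by
      rw [one_div, inv_pow]; field_simp
    rw [this]
    exact ha.le
  obtain ⟨n0, hn0⟩ := h (δ / 2) (((a + 1 + 1 : ℝ) * C + 1) / Λ) ((a + 1 + 1) * J + 1) (by positivity)
  obtain ⟨n, hn, hbud⟩ := hlarge (max n0 (2 ^ (a + 1)))
  have hn1 : n0 ≤ n := (le_max_left _ _).trans hn
  have hn2 : 2 ^ (a + 1) ≤ n := (le_max_right _ _).trans hn
  set T := ⌊n * Real.log 3 / Real.log 2⌋₊ with hT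
  set N := n / 2 ^ a with hN
  have hT1 : (T : ℝ) ≤ n * Real.log 3 / Real.log 2 := Nat.floor_le (by positivity)
  have hT2 : (T : ℝ) * Real.log 2 ≤ n * Real.log 3 := by
    rwa [le_div_iff₀ hl2] at hT1
  have hnT : n ≤ T := by
    apply Nat.le_floor
    rw [le_div_iff₀ hl2]
    exact mul_le_mul_of_nonneg_left hl23 (Nat.cast_nonneg _)
  have hT3 : T ≤ 2 * n := by
    have : (T : ℝ) ≤ 2 * n := by
      refine hT1.trans ?_
      rw [div_le_iff₀ hl2]
      have : (n : ℝ) * Real.log 3 ≤ n * (2 * Real.log 2) :=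
        mul_le_mul_of_nonneg_left hl32 (Nat.cast_nonneg _)
      linarith
    exact_mod_cast this
  have hNa : n < (N + 1) * 2 ^ a := by
    have := Nat.lt_div_mul_add (a := n) (b := 2 ^ a) (by positivity)
    rw [add_mul, one_mul]
    exact this
  have hT4 : T ≤ N * 2 ^ (a + 1 + 1) := by
    have e1 : N * 2 ^ (a + 1 + 1) = 4 * (N * 2 ^ a) := by ring
    have e2 : (N + 1) * 2 ^ a = N * 2 ^ a + 2 ^ a := by ring
    have e3 : 2 ^ (a + 1) = 2 * 2 ^ a := by ring
    rw [e1]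
    rw [e2] at hNa
    rw [e3] at hn2
    omega
  have hNn : (N : ℝ) ≤ n / 2 ^ a := by
    have := Nat.cast_div_le (α := ℝ) (m := n) (n := 2 ^ a)
    simpa using this
  have key := hn0 n hn1 (win S N T) ?_ ?_ ?_ σ hσ hz
  · have hs := sum_win S N T (a + 1) hT4 _ hterm C hcon
    rw [div_mul_cancel₀ _ hΛ.ne'] at key
    push_cast at hs
    have := key.trans hs
    linarith
  · exact ends_win S N T (a + 1) J hT4 hJ
  · intro k hk
    rw [mem_win] at hk
    have : (k : ℝ) ≤ T := by exact_mod_cast hk.1.2.le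
    have := mul_le_mul_of_nonneg_right this hl2.le
    linarith
  · have h1 : (cnt S T : ℝ) ≤ (win S N T).card + N := by exact_mod_cast cnt_le S N T
    have h2 : (cnt S n : ℝ) ≤ ((win S N T).filter (fun k => k ≤ n)).card + N := by
      exact_mod_cast cnt_le' S N T n hnT
    have h3 := mul_le_mul_of_nonneg_left h1 hl2.le
    have h4 := mul_le_mul_of_nonneg_left h2 hl3.le
    have h5 : (N : ℝ) * (Real.log 2 + Real.log 3) ≤ n * (δ / 2 * Real.log 3) := by
      calc (N : ℝ) * (Real.log 2 + Real.log 3)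
          ≤ n / 2 ^ a * (Real.log 2 + Real.log 3) := by gcongr
        _ = n * ((Real.log 2 + Real.log 3) / 2 ^ a) := by ring
        _ ≤ n * (δ / 2 * Real.log 3) := by gcongr
    rw [budget, ← hT] at hbud
    nlinarith

end Pool.Agent.Helper71.Dn
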